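import Mathlib

/-!
# MP_58eafa_nt: the statement of Q1 is false (n = 10 and n = 15)
-/

namespace Pool.Agent.Results.MP_58eafa_nt.Disproof

/-- a primality test by trial division (used in the proof only) -/
def isP (n : ℕ) : Bool := 2 ≤ n && (List.range n).all fun d => d < 2 || n % d != 0

theorem isP_iff (n : ℕ) : isP n = true ↔ n.Prime := by
  rw [Nat.prime_def_lt']
  simp only [isP, Bool.and_eq_true, decide_eq_true_eq, List.all_eq_true, List.mem_range,
    Bool.or_eq_true, bne_iff_ne, ne_eq]
  constructor
  · rintro ⟨h2, h⟩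
    refine ⟨h2, fun m hm hmn hd => ?_⟩
    rcases h m hmn with h | h
    · omega
    · exact h (Nat.mod_eq_zero_of_dvd hd)
  · rintro ⟨h2, h⟩
    refine ⟨h2, fun m hmn => ?_⟩
    by_cases hm : m < 2
    · exact Or.inl hm
    · exact Or.inr fun h0 => h m (by omega) hmn (Nat.dvd_of_mod_eq_zero h0)

theorem nth_of {k p : ℕ} (hp : isP p = true)
    (hc : ((List.range p).filter isP).length = k) : Nat.nth Nat.Prime k = p := by
  have h1 : Nat.count Nat.Prime p = k := by
    rw [← hc, Nat.count_eq_card_filter_range]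
    rw [← List.toFinset_card_of_nodup ((List.nodup_range).filter _)]
    congr 1
    ext x
    simp [isP_iff]
  rw [← h1]
  exact Nat.nth_count ((isP_iff p).1 hp)

/-- Q1 is false: for `n = 10` and for `n = 15` no `k` with `1 ≤ k < n` makes both `2k+1` and
`p_{kn} + kn` prime (`p_m` is the `m`-th prime, `Nat.nth Nat.Prime (m - 1)`). -/
theorem result :
    (¬ ∀ n : ℕ, 5 < n → ∃ k : ℕ, 1 ≤ k ∧ k < n ∧
      (2 * k + 1).Prime ∧ (Nat.nth Nat.Prime (k * n - 1) + k * n).Prime) ∧
    ∀ n : ℕ, n = 10 ∨ n = 15 → ∀ k : ℕ, 1 ≤ k → k < n →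
      ¬ ((2 * k + 1).Prime ∧ (Nat.nth Nat.Prime (k * n - 1) + k * n).Prime) := by
  have key : ∀ n : ℕ, n = 10 ∨ n = 15 → ∀ k : ℕ, 1 ≤ k → k < n →
      ¬ ((2 * k + 1).Prime ∧ (Nat.nth Nat.Prime (k * n - 1) + k * n).Prime) := by
    have a10 : Nat.nth Nat.Prime 9 = 29 := nth_of (by decide +kernel) (by decide +kernel)
    have a20 : Nat.nth Nat.Prime 19 = 71 := nth_of (by decide +kernel) (by decide +kernel)
    have a30 : Nat.nth Nat.Prime 29 = 113 := nth_of (by decide +kernel) (by decide +kernel)
    have a50 : Nat.nth Nat.Prime 49 = 229 := nth_of (by decide +kernel) (by decide +kernel)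
    have a60 : Nat.nth Nat.Prime 59 = 281 := nth_of (by decide +kernel) (by decide +kernel)
    have a80 : Nat.nth Nat.Prime 79 = 409 := nth_of (by decide +kernel) (by decide +kernel)
    have a90 : Nat.nth Nat.Prime 89 = 463 := nth_of (by decide +kernel) (by decide +kernel)
    have a15 : Nat.nth Nat.Prime 14 = 47 := nth_of (by decide +kernel) (by decide +kernel)
    have a45 : Nat.nth Nat.Prime 44 = 197 := nth_of (by decide +kernel) (by decide +kernel)
    have a75 : Nat.nth Nat.Prime 74 = 379 := nth_of (by decide +kernel) (by decide +kernel)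
    have a120 : Nat.nth Nat.Prime 119 = 659 := nth_of (by decide +kernel) (by decide +kernel)
    have a135 : Nat.nth Nat.Prime 134 = 761 := nth_of (by decide +kernel) (by decide +kernel)
    have a165 : Nat.nth Nat.Prime 164 = 977 := nth_of (by decide +kernel) (by decide +kernel)
    have a210 : Nat.nth Nat.Prime 209 = 1291 := nth_of (by decide +kernel) (by decide +kernel)
    rintro n (rfl | rfl) k h1 h2 ⟨h3, h4⟩
    · interval_cases k <;>
        first
          | (revert h3; norm_num; done)
          | (revert h4; norm_num [a10, a20, a30, a50, a60, a80, a90]; done)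
    · interval_cases k <;>
        first
          | (revert h3; norm_num; done)
          | (revert h4; norm_num [a15, a30, a45, a75, a90, a120, a135, a165, a210]; done)
  refine ⟨fun h => ?_, key⟩
  obtain ⟨k, h1, h2, h3⟩ := h 10 (by norm_num)
  exact key 10 (Or.inl rfl) k h1 h2 h3

end Pool.Agent.Results.MP_58eafa_nt.Disproof
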